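import Pool.Agent.H33.SMS.Targets

/-!
# Row CRI: the p-adic criterion
-/

set_option autoImplicit false

noncomputable section

namespace Pool.Agent.H56.SMS

open Pool.Agent.H33.SMS

/-- `(n-j) (n)_j C(n-1-j,s-1-j) = n (s-1)_j C(n-1,s-1)`. -/
theorem key_id (n s : ℕ) : ∀ j, j + 1 ≤ s → s < n →
    (n - j) * (n.descFactorial j * (n - 1 - j).choose (s - 1 - j)) =
      n * ((s - 1).descFactorial j * (n - 1).choose (s - 1)) := by
  intro j
  induction j with
  | zero => intro hs hn; simp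
  | succ j ih =>
    intro hs hn
    have ih' := ih (by omega) hn
    -- C(n-1-j, s-1-j) = with N = n-1-j, M = s-1-j : (N) C(N-1,M-1) = M C(N,M)
    obtain ⟨M, hM⟩ : ∃ M, s - 1 - j = M + 1 := ⟨s - 1 - j - 1, by omega⟩
    obtain ⟨N, hN⟩ : ∃ N, n - 1 - j = N + 1 := ⟨n - 1 - j - 1, by omega⟩
    have e1 : s - 1 - (j + 1) = M := by omega
    have e2 : n - 1 - (j + 1) = N := by omega
    have e3 : n - (j + 1) = N + 1 := by omega
    have e4 : n - j = N + 2 := by omega
    rw [hM, hN, e4] at ih'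
    rw [e1, e2, e3, Nat.descFactorial_succ, Nat.descFactorial_succ, e4]
    have hc : (N + 1) * N.choose M = (N + 1).choose (M + 1) * (M + 1) := Nat.add_one_mul_choose_eq N M
    have e5 : s - 1 - j = M + 1 := hM
    rw [e5]
    calc (N + 1) * ((N + 2) * n.descFactorial j * N.choose M)
        = ((N + 1) * N.choose M) * ((N + 2) * n.descFactorial j) := by ring
      _ = ((N + 1).choose (M + 1) * (M + 1)) * ((N + 2) * n.descFactorial j) := by rw [hc]
      _ = ((N + 2) * (n.descFactorial j * (N + 1).choose (M + 1))) * (M + 1) := by ring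
      _ = (n * ((s - 1).descFactorial j * (n - 1).choose (s - 1))) * (M + 1) := by rw [ih']
      _ = n * ((M + 1) * (s - 1).descFactorial j * (n - 1).choose (s - 1)) := by ring

/-- `v_p((n)_j C(n-1-j,s-1-j)) > v`. -/
theorem val_big (p n s : ℕ) (hc : Crit p n s) (hsn : s < n) (j : ℕ) (hj : 1 ≤ j) (hjs : j < s) :
    p ^ (padicValNat p ((n - 1).choose (s - 1)) + 1) ∣
      n.descFactorial j * (n - 1 - j).choose (s - 1 - j) := by
  obtain ⟨hp, hpn, hps, hval⟩ := hc
  haveI : Fact p.Prime := ⟨hp⟩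
  have h1 := key_id n s j (by omega) hsn
  have p1 : n - j ≠ 0 := by omega
  have p2 : n.descFactorial j ≠ 0 := by
    intro h0
    rw [Nat.descFactorial_eq_zero_iff_lt] at h0
    omega
  have p3 : (n - 1 - j).choose (s - 1 - j) ≠ 0 := (Nat.choose_pos (by omega)).ne'
  have p4 : n ≠ 0 := by omega
  have p5 : (s - 1).descFactorial j ≠ 0 := by
    intro h0
    rw [Nat.descFactorial_eq_zero_iff_lt] at h0
    omega
  have p6 : (n - 1).choose (s - 1) ≠ 0 := (Nat.choose_pos (by omega)).ne'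
  have h2 := congrArg (padicValNat p) h1
  rw [padicValNat.mul p1 (mul_ne_zero p2 p3), padicValNat.mul p4 (mul_ne_zero p5 p6),
    padicValNat.mul p5 p6] at h2
  have h3 := hval j hj hjs
  rw [padicValNat_dvd_iff_le (mul_ne_zero p2 p3)]
  omega

/-- The claim: `p^(v+1)` divides `(n)_j G(n-j,s-j,k)`. -/
theorem claim_dvd (hR : T_REC) (hZ : T_GZ) (p n s : ℕ) (hc : Crit p n s) (hsn : s < n) (k : ℕ) :
    ∀ j, 1 ≤ j → j < s →
      ((p ^ (padicValNat p ((n - 1).choose (s - 1)) + 1) : ℕ) : ℤ) ∣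
        (n.descFactorial j : ℤ) * G (n - j) (s - j) k := by
  induction k with
  | zero =>
    intro j hj hjs
    have h1 := val_big p n s hc hsn j hj hjs
    have e1 : n - j = (n - 1 - j) + 1 := by omega
    have e2 : s - j = (s - 1 - j) + 1 := by omega
    rw [e1, e2, hZ]
    have h2 : ((p ^ (padicValNat p ((n - 1).choose (s - 1)) + 1) : ℕ) : ℤ) ∣
      ((n.descFactorial j * (n - 1 - j).choose (s - 1 - j) : ℕ) : ℤ) := by
      exact_mod_cast h1
    rw [Nat.cast_mul] at h2
    exact h2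
  | succ k ih =>
    intro j hj hjs
    have e1 : n - j = (n - (j + 1)) + 1 := by omega
    have e2 : s - j = (s - (j + 1)) + 1 := by omega
    have h1 := hR (n - (j + 1)) (s - (j + 1)) k
    rw [← e1, ← e2] at h1
    rw [h1]
    have hA := ih j hj hjs
    have hB : ((p ^ (padicValNat p ((n - 1).choose (s - 1)) + 1) : ℕ) : ℤ) ∣
        (n.descFactorial (j + 1) : ℤ) * G (n - (j + 1)) (s - (j + 1)) k := by
      rcases Nat.lt_or_ge (j + 1) s with h | h
      · exact ih (j + 1) (by omega) h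
      · have e3 : s - (j + 1) = 0 := by omega
        rw [e3]
        simp [G]
    have e4 : (((n - (j + 1) : ℕ) : ℤ) + 1) = ((n - j : ℕ) : ℤ) := by
      rw [e1]; push_cast; ring
    rw [e4]
    have e5 : (n.descFactorial (j + 1) : ℤ) = ((n - j : ℕ) : ℤ) * (n.descFactorial j : ℤ) := by
      rw [Nat.descFactorial_succ]; push_cast; ring
    rw [e5] at hB
    have e6 : (n.descFactorial j : ℤ) *
        ((((s - (j + 1) : ℕ) : ℤ) + 1) * G (n - j) (s - j) k -
          ((n - j : ℕ) : ℤ) * G (n - (j + 1)) (s - (j + 1)) k) =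
        (((s - (j + 1) : ℕ) : ℤ) + 1) * ((n.descFactorial j : ℤ) * G (n - j) (s - j) k) -
          ((n - j : ℕ) : ℤ) * (n.descFactorial j : ℤ) * G (n - (j + 1)) (s - (j + 1)) k := by
      ring
    rw [e6]
    exact dvd_sub (Dvd.dvd.mul_left hA _) hB

/-- The main congruence. -/
theorem main_congr (hR : T_REC) (hZ : T_GZ) (p n s : ℕ) (hc : Crit p n s) (hsn : s < n)
    (hs : 1 ≤ s) (k : ℕ) :
    ((p ^ (padicValNat p ((n - 1).choose (s - 1)) + 1) : ℕ) : ℤ) ∣
      G n s k - (s : ℤ) ^ k * ((n - 1).choose (s - 1) : ℤ) := by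
  induction k with
  | zero =>
    have e1 : n = (n - 1) + 1 := by omega
    have e2 : s = (s - 1) + 1 := by omega
    have h := hZ (n - 1) (s - 1)
    rw [← e1, ← e2] at h
    rw [h]
    simp
  | succ k ih =>
    have e1 : n = (n - 1) + 1 := by omega
    have e2 : s = (s - 1) + 1 := by omega
    have h := hR (n - 1) (s - 1) k
    rw [← e1, ← e2] at h
    have e3 : (((s - 1 : ℕ) : ℤ) + 1) = (s : ℤ) := by
      have : ((s - 1 : ℕ) : ℤ) = (s : ℤ) - 1 := by push_cast [hs]; ring
      rw [this]; ring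
    have e4 : (((n - 1 : ℕ) : ℤ) + 1) = (n : ℤ) := by
      have h1n : 1 ≤ n := by omega
      have : ((n - 1 : ℕ) : ℤ) = (n : ℤ) - 1 := by push_cast [h1n]; ring
      rw [this]; ring
    rw [e3, e4] at h
    rw [h]
    have hB : ((p ^ (padicValNat p ((n - 1).choose (s - 1)) + 1) : ℕ) : ℤ) ∣
        (n : ℤ) * G (n - 1) (s - 1) k := by
      rcases Nat.lt_or_ge 1 s with h1 | h1
      · have := claim_dvd hR hZ p n s hc hsn k 1 le_rfl h1
        simpa using this
      · have e5 : s - 1 = 0 := by omega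
        rw [e5]
        simp [G]
    have e7 : (s : ℤ) * G n s k - (n : ℤ) * G (n - 1) (s - 1) k -
        (s : ℤ) ^ (k + 1) * ((n - 1).choose (s - 1) : ℤ) =
        (s : ℤ) * (G n s k - (s : ℤ) ^ k * ((n - 1).choose (s - 1) : ℤ)) -
          (n : ℤ) * G (n - 1) (s - 1) k := by ring
    rw [e7]
    exact dvd_sub (Dvd.dvd.mul_left ih _) hB

theorem pf_CRI (hR : T_REC) (hZ : T_GZ) : T_CRI := by
  intro p n s hc hsn k hG
  have hs : 1 ≤ s := by
    rcases Nat.eq_zero_or_pos s with h | h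
    · exfalso
      apply hc.2.2.1
      rw [h]
      exact dvd_zero p
    · exact h
  have h := main_congr hR hZ p n s hc hsn hs k
  obtain ⟨hp, hpn, hps, hval⟩ := hc
  haveI : Fact p.Prime := ⟨hp⟩
  rw [hG, zero_sub, dvd_neg] at h
  have h2 : p ^ (padicValNat p ((n - 1).choose (s - 1)) + 1) ∣ s ^ k * (n - 1).choose (s - 1) := by
    have h3 : ((s : ℤ) ^ k * ((n - 1).choose (s - 1) : ℤ)) =
      ((s ^ k * (n - 1).choose (s - 1) : ℕ) : ℤ) := by push_cast; ring
    rw [h3] at h
    exact_mod_cast h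
  have h4 : Nat.Coprime (p ^ (padicValNat p ((n - 1).choose (s - 1)) + 1)) (s ^ k) := by
    apply Nat.Coprime.pow
    exact (Nat.Prime.coprime_iff_not_dvd hp).2 hps
  have h5 := h4.dvd_of_dvd_mul_left h2
  have p6 : (n - 1).choose (s - 1) ≠ 0 := (Nat.choose_pos (by omega)).ne'
  rw [padicValNat_dvd_iff_le p6] at h5
  omega

end Pool.Agent.H56.SMS
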