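import Pool.Agent.H33.SMS.Targets

/-!
# Rows GZ, STR, LOC
-/

set_option autoImplicit false

noncomputable section

namespace Pool.Agent.H56.SMS

open Pool.Agent.H33.SMS

theorem pf_GZ : T_GZ := by
  intro n s
  induction s with
  | zero => simp [G]
  | succ s ih =>
    unfold G at ih ⊢
    rw [Finset.sum_range_succ']
    have e : ∀ i ∈ Finset.range (s + 1),
        (-1 : ℤ) ^ (i + 1) * (((i + 1 : ℕ) : ℤ) + 1) ^ 0 *
          ((n + 1).choose (s + 1 + 1 - 1 - (i + 1)) : ℤ) =
        - ((-1) ^ i * ((i : ℤ) + 1) ^ 0 * ((n + 1).choose (s + 1 - 1 - i) : ℤ)) := by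
      intro i _
      have e1 : s + 1 + 1 - 1 - (i + 1) = s + 1 - 1 - i := by omega
      rw [e1, pow_succ]
      ring
    rw [Finset.sum_congr rfl e, Finset.sum_neg_distrib, ih]
    have h : (n + 1).choose (s + 1) = n.choose s + n.choose (s + 1) := Nat.choose_succ_succ n s
    have e2 : s + 1 + 1 - 1 - 0 = s + 1 := by omega
    rw [e2, h]
    push_cast
    ring

end Pool.Agent.H56.SMS
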