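import Pool.Agent.H33.SMS.Targets

/-!
# Row STR
-/

set_option autoImplicit false

noncomputable section

namespace Pool.Agent.H56.SMS

open Pool.Agent.H33.SMS

theorem pf_STR : T_STR := by
  intro n s hs hsn h2s h8 h4 hodd
  by_contra hcon
  have hcon' : ∀ p, p.Prime → p ∣ n → ¬ Bad p n → p ∣ s := by
    intro p hp hpn hb
    by_contra hps
    exact hcon ⟨p, hp, hpn, hps, hb⟩
  have hn : n ≠ 0 := by omega
  obtain ⟨a, m, hm, hn'⟩ := Nat.exists_eq_two_pow_mul_odd hn
  have hm2 : ¬ 2 ∣ m := by
    intro h
    exact (Nat.not_even_iff_odd.2 hm) (even_iff_two_dvd.2 h)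
  have hm0 : m ≠ 0 := by
    intro h0
    apply hm2
    rw [h0]
    exact dvd_zero 2
  have hmn : m ∣ n := by rw [hn']; exact Dvd.intro_left _ rfl
  have hsq : Squarefree m := by
    rw [Nat.squarefree_iff_prime_squarefree]
    intro q hq hqq
    have hq2 : q ≠ 2 := by
      intro h
      rw [h] at hqq
      exact hm2 (dvd_trans (Dvd.intro_left 2 rfl) hqq)
    have hqn : q ∣ n := dvd_trans (dvd_trans (Dvd.intro_left q rfl) hqq) hmn
    apply (hodd q hq hq2 hqn).1
    rw [pow_two]
    exact dvd_trans hqq hmn
  have hms : m ∣ s := by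
    have h1 : ∏ p ∈ m.primeFactors, p ∣ s := by
      apply Finset.prod_primes_dvd
      · intro p hp
        exact (Nat.prime_of_mem_primeFactors hp).prime
      · intro p hp
        have hpp := Nat.prime_of_mem_primeFactors hp
        have hpm := Nat.dvd_of_mem_primeFactors hp
        have hp2 : p ≠ 2 := by
          intro h
          rw [h] at hpm
          exact hm2 hpm
        exact hcon' p hpp (dvd_trans hpm hmn) (hodd p hpp hp2 (dvd_trans hpm hmn)).2
    rwa [Nat.prod_primeFactors_of_squarefree hsq] at h1
  rcases Nat.lt_or_ge a 3 with ha | ha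
  · interval_cases a
    · have h1 : n = m := by rw [hn']; ring
      have h2 := Nat.le_of_dvd hs hms
      omega
    · have h1 : n = 2 * m := by rw [hn']; ring
      obtain ⟨t, ht⟩ := hms
      have ht1 : t = 1 := by
        have h3 : t < 2 := by
          by_contra h4
          have h5 : m * 2 ≤ m * t := Nat.mul_le_mul_left m (by omega)
          omega
        have h4 : t ≠ 0 := by
          intro h5
          rw [h5] at ht
          omega
        omega
      rw [ht1] at ht
      omega
    · have h1 : n = 4 * m := by rw [hn']; ring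
      haveI : Fact (Nat.Prime 2) := ⟨Nat.prime_two⟩
      have hv : padicValNat 2 n = 2 := by
        rw [hn', padicValNat.mul (by norm_num) hm0, padicValNat.prime_pow,
          padicValNat.eq_zero_of_not_dvd hm2]
      have h2 : 2 ∣ s := hcon' 2 Nat.prime_two (by omega) (h4 hv)
      have hcop : Nat.Coprime 2 m := (Nat.Prime.coprime_iff_not_dvd Nat.prime_two).2 hm2
      have h3 : 2 * m ∣ s := Nat.Coprime.mul_dvd_of_dvd_of_dvd hcop h2 hms
      obtain ⟨t, ht⟩ := h3
      have ht1 : t = 1 := by
        have h3 : t < 2 := by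
          by_contra h4
          have h5 : (2 * m) * 2 ≤ (2 * m) * t := Nat.mul_le_mul_left _ (by omega)
          omega
        have h4 : t ≠ 0 := by
          intro h5
          rw [h5] at ht
          omega
        omega
      rw [ht1] at ht
      omega
  · apply h8
    rw [hn']
    have h1 : (8 : ℕ) ∣ 2 ^ a := by
      have : (8 : ℕ) = 2 ^ 3 := by norm_num
      rw [this]
      exact pow_dvd_pow 2 ha
    exact Dvd.dvd.mul_right h1 m

end Pool.Agent.H56.SMS
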