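import Pool.Agent.H33.SMS.Targets

/-!
# Row ALT: alternating sums of strongly log-concave sequences
-/

set_option autoImplicit false

noncomputable section

namespace Pool.Agent.H56.SMS

open Pool.Agent.H33.SMS

theorem alt_tail (N : ℕ) : ∀ f : ℕ → ℝ, (∀ i, 0 ≤ f i) → (∀ i, f (i + 1) ≤ f i) →
    0 ≤ ∑ i ∈ Finset.range N, (-1 : ℝ) ^ i * f i ∧
      ∑ i ∈ Finset.range N, (-1 : ℝ) ^ i * f i ≤ f 0 := by
  induction N with
  | zero => intro f h0 h1; simp [h0 0]
  | succ N ih =>
    intro f h0 h1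
    rw [Finset.sum_range_succ']
    have e : ∑ i ∈ Finset.range N, (-1 : ℝ) ^ (i + 1) * f (i + 1) =
        - ∑ i ∈ Finset.range N, (-1 : ℝ) ^ i * (fun j => f (j + 1)) i := by
      rw [← Finset.sum_neg_distrib]
      apply Finset.sum_congr rfl
      intro i _
      rw [pow_succ]; ring
    rw [e]
    have h := ih (fun j => f (j + 1)) (fun i => h0 _) (fun i => h1 _)
    have h2 := h1 0
    simp only [zero_add] at h h2
    constructor
    · simp only [pow_zero, one_mul]; linarith [h.2]
    · simp only [pow_zero, one_mul]; linarith [h.1]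

theorem alt_seq (f : ℕ → ℝ) (q : ℝ) (hq0 : 0 < q) (hq : q ≤ 1) (h0 : ∀ i, 0 ≤ f i)
    (h1 : f 1 ≤ f 0) (h2 : ∀ i, f i * f (i + 2) ≤ q * f (i + 1) ^ 2)
    (h3 : ∀ i, f i = 0 → f (i + 2) = 0) :
    ∀ i, f (i + 1) ≤ f i ∧ f (i + 2) ≤ q * f (i + 1) := by
  intro i
  induction i with
  | zero =>
    refine ⟨h1, ?_⟩
    rcases (h0 0).eq_or_lt with h | h
    · rw [h3 0 h.symm]
      exact mul_nonneg hq0.le (h0 _)
    · have h4 := h2 0
      have h5 : f 0 * f 2 ≤ f 0 * (q * f 1) := by
        calc f 0 * f 2 ≤ q * f 1 ^ 2 := h4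
          _ = (q * f 1) * f 1 := by ring
          _ ≤ (q * f 1) * f 0 := by
              apply mul_le_mul_of_nonneg_left h1 (mul_nonneg hq0.le (h0 _))
          _ = f 0 * (q * f 1) := by ring
      exact le_of_mul_le_mul_left h5 h
  | succ i ih =>
    have h6 : f (i + 2) ≤ f (i + 1) := by
      calc f (i + 2) ≤ q * f (i + 1) := ih.2
        _ ≤ 1 * f (i + 1) := mul_le_mul_of_nonneg_right hq (h0 _)
        _ = f (i + 1) := one_mul _
    refine ⟨h6, ?_⟩
    rcases (h0 (i + 1)).eq_or_lt with h | h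
    · rw [h3 (i + 1) h.symm]
      exact mul_nonneg hq0.le (h0 _)
    · have h4 := h2 (i + 1)
      have h5 : f (i + 1) * f (i + 1 + 2) ≤ f (i + 1) * (q * f (i + 1 + 1)) := by
        calc f (i + 1) * f (i + 1 + 2) ≤ q * f (i + 1 + 1) ^ 2 := h4
          _ = (q * f (i + 1 + 1)) * f (i + 1 + 1) := by ring
          _ ≤ (q * f (i + 1 + 1)) * f (i + 1) := by
              apply mul_le_mul_of_nonneg_left h6 (mul_nonneg hq0.le (h0 _))
          _ = f (i + 1) * (q * f (i + 1 + 1)) := by ring
      exact le_of_mul_le_mul_left h5 h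

/-- Numerical conclusion. -/
theorem alt_num (M L R q : ℝ) (hM : 0 < M) (hL0 : 0 ≤ L) (hR0 : 0 ≤ R) (hLM : L ≤ M) (hRM : R ≤ M)
    (hq0 : 0 < q) (hq : q ≤ 1 / 16) (hLR : L * R ≤ q * M ^ 2)
    (hs : |M - L - R| ≤ q * (L + R)) (h : R ≤ L) : 0 < L ∧ M - L ≤ 10 * q * L := by
  have h1 := (abs_le.1 hs).2
  have h2 : M ≤ (1 + q) * (L + R) := by linarith
  have h3 : (1 + q) * (L + R) ≤ 17 / 16 * (L + R) := by
    apply mul_le_mul_of_nonneg_right _ (by linarith); linarith
  have h4 : 8 / 17 * M ≤ L := by linarith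
  have h5 : (8 / 17 * M) * R ≤ q * M ^ 2 :=
    le_trans (mul_le_mul_of_nonneg_right h4 hR0) hLR
  have h6 : R ≤ 17 / 8 * q * M := by
    have : M * (8 / 17 * R) ≤ M * (q * M) := by nlinarith
    have h7 := le_of_mul_le_mul_left this hM
    linarith
  have h8 : q * (L + R) ≤ q * (2 * M) := mul_le_mul_of_nonneg_left (by linarith) hq0.le
  have h9 : M - L ≤ 33 / 8 * (q * M) := by
    have : M - L ≤ R + q * (L + R) := by linarith
    nlinarith
  have h10 : q * M ≤ 1 / 16 * M := mul_le_mul_of_nonneg_right hq hM.le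
  have h11 : M ≤ 128 / 95 * L := by linarith
  have h12 : q * M ≤ q * (128 / 95 * L) := mul_le_mul_of_nonneg_left h11 hq0.le
  have h13 : 0 < L := by linarith
  refine ⟨h13, ?_⟩
  have h14 : 0 ≤ q * L := mul_nonneg hq0.le hL0
  nlinarith

theorem pf_ALT : T_ALT := by
  intro s a q hs hq0 hq hpos hlc hsum
  -- index of the maximum
  obtain ⟨m, hm, hmax⟩ := Finset.exists_max_image (Finset.range s) (fun i => a (i + 1))
    ⟨0, Finset.mem_range.2 (by omega)⟩
  have hms : m < s := Finset.mem_range.1 hm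
  have hmax' : ∀ i, i < s → a (i + 1) ≤ a (m + 1) := fun i hi => hmax i (Finset.mem_range.2 hi)
  set R : ℕ → ℝ := fun i => if m + i < s then a (m + i + 1) else 0 with hR
  set L : ℕ → ℝ := fun i => if i ≤ m then a (m - i + 1) else 0 with hL
  have hR0 : ∀ i, 0 ≤ R i := by
    intro i
    simp only [hR]
    split_ifs with h
    · exact (hpos _ (by omega) (by omega)).le
    · exact le_rfl
  have hL0 : ∀ i, 0 ≤ L i := by
    intro i
    simp only [hL]
    split_ifs with h
    · exact (hpos _ (by omega) (by omega)).le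
    · exact le_rfl
  have hR00 : R 0 = a (m + 1) := by simp [hR, hms]
  have hL00 : L 0 = a (m + 1) := by simp [hL]
  have hM : 0 < a (m + 1) := hpos _ (by omega) (by omega)
  have hR1 : R 1 ≤ R 0 := by
    rw [hR00]
    simp only [hR]
    split_ifs with h
    · exact hmax' (m + 1) h
    · exact hM.le
  have hL1 : L 1 ≤ L 0 := by
    rw [hL00]
    simp only [hL]
    split_ifs with h
    · exact hmax' (m - 1) (by omega)
    · exact hM.le
  have hR2 : ∀ i, R i * R (i + 2) ≤ q * R (i + 1) ^ 2 := by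
    intro i
    by_cases h : m + (i + 2) < s
    · have h1 := hlc (m + i + 1) (by omega) (by omega)
      simp only [hR]
      rw [if_pos (by omega), if_pos (by omega), if_pos (by omega)]
      have e1 : m + (i + 2) + 1 = m + i + 1 + 2 := by omega
      have e2 : m + (i + 1) + 1 = m + i + 1 + 1 := by omega
      rw [e1, e2]
      exact h1
    · have h1 : R (i + 2) = 0 := by simp only [hR]; rw [if_neg h]
      rw [h1, mul_zero]
      exact mul_nonneg hq0.le (sq_nonneg _)
  have hL2 : ∀ i, L i * L (i + 2) ≤ q * L (i + 1) ^ 2 := by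
    intro i
    by_cases h : i + 2 ≤ m
    · have h1 := hlc (m - (i + 2) + 1) (by omega) (by omega)
      simp only [hL]
      rw [if_pos (by omega), if_pos (by omega), if_pos (by omega)]
      have e1 : m - (i + 2) + 1 + 2 = m - i + 1 := by omega
      have e2 : m - (i + 2) + 1 + 1 = m - (i + 1) + 1 := by omega
      rw [e1, e2] at h1
      rw [mul_comm]
      exact h1
    · have h1 : L (i + 2) = 0 := by simp only [hL]; rw [if_neg h]
      rw [h1, mul_zero]
      exact mul_nonneg hq0.le (sq_nonneg _)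
  have hR3 : ∀ i, R i = 0 → R (i + 2) = 0 := by
    intro i h
    by_cases h1 : m + (i + 2) < s
    · exfalso
      have h2 : 0 < R i := by
        simp only [hR]
        rw [if_pos (by omega)]
        exact hpos _ (by omega) (by omega)
      linarith
    · simp only [hR]; rw [if_neg h1]
  have hL3 : ∀ i, L i = 0 → L (i + 2) = 0 := by
    intro i h
    by_cases h1 : i + 2 ≤ m
    · exfalso
      have h2 : 0 < L i := by
        simp only [hL]
        rw [if_pos (by omega)]
        exact hpos _ (by omega) (by omega)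
      linarith
    · simp only [hL]; rw [if_neg h1]
  have hq1 : q ≤ 1 := by linarith
  have sR := alt_seq R q hq0 hq1 hR0 hR1 hR2 hR3
  have sL := alt_seq L q hq0 hq1 hL0 hL1 hL2 hL3
  have tR := alt_tail (s - m) (fun i => R (i + 2)) (fun i => hR0 _) (fun i => (sR (i + 2)).1)
  have tL := alt_tail m (fun i => L (i + 2)) (fun i => hL0 _) (fun i => (sL (i + 2)).1)
  simp only [zero_add] at tR tL
  -- the decomposition
  have dR : ∑ i ∈ Finset.range (s - m), (-1 : ℝ) ^ i * R i =
      R 0 - R 1 + ∑ i ∈ Finset.range (s - m), (-1 : ℝ) ^ i * R (i + 2) := by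
    have z1 : R (s - m) = 0 := by simp only [hR]; rw [if_neg (by omega)]
    have z2 : R (s - m + 1) = 0 := by simp only [hR]; rw [if_neg (by omega)]
    have h1 : ∑ i ∈ Finset.range (s - m + 1 + 1), (-1 : ℝ) ^ i * R i =
        ∑ i ∈ Finset.range (s - m), (-1 : ℝ) ^ i * R i := by
      rw [Finset.sum_range_succ, Finset.sum_range_succ, z1, z2]; ring
    rw [← h1, Finset.sum_range_succ', Finset.sum_range_succ']
    have h2 : ∀ i, (-1 : ℝ) ^ (i + 1 + 1) * R (i + 1 + 1) = (-1 : ℝ) ^ i * R (i + 2) := by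
      intro i; rw [pow_succ, pow_succ]; ring
    rw [Finset.sum_congr rfl (fun i _ => h2 i)]
    simp only [zero_add, pow_zero, pow_one]
    ring
  have dL : ∑ j ∈ Finset.range m, (-1 : ℝ) ^ (j + 1) * L (j + 1) =
      - L 1 + ∑ i ∈ Finset.range m, (-1 : ℝ) ^ i * L (i + 2) := by
    have z1 : L (m + 1) = 0 := by simp only [hL]; rw [if_neg (by omega)]
    have h1 : ∑ j ∈ Finset.range (m + 1), (-1 : ℝ) ^ (j + 1) * L (j + 1) =
        ∑ j ∈ Finset.range m, (-1 : ℝ) ^ (j + 1) * L (j + 1) := by
      rw [Finset.sum_range_succ, z1]; ring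
    rw [← h1, Finset.sum_range_succ']
    have h2 : ∀ i, (-1 : ℝ) ^ (i + 1 + 1) * L (i + 1 + 1) = (-1 : ℝ) ^ i * L (i + 2) := by
      intro i; rw [pow_succ, pow_succ]; ring
    rw [Finset.sum_congr rfl (fun i _ => h2 i)]
    simp only [zero_add, pow_one]
    ring
  have dS : ∑ i ∈ Finset.range s, (-1 : ℝ) ^ i * a (i + 1) =
      (-1 : ℝ) ^ m * (∑ j ∈ Finset.range m, (-1 : ℝ) ^ (j + 1) * L (j + 1) +
        ∑ i ∈ Finset.range (s - m), (-1 : ℝ) ^ i * R i) := by
    have e1 : s = m + (s - m) := by omega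
    conv_lhs => rw [e1, Finset.sum_range_add]
    rw [mul_add]
    congr 1
    · rw [← Finset.sum_range_reflect, Finset.mul_sum]
      apply Finset.sum_congr rfl
      intro j hj
      have hj' : j < m := Finset.mem_range.1 hj
      have e2 : L (j + 1) = a (m - 1 - j + 1) := by
        simp only [hL]
        rw [if_pos (by omega)]
        congr 1
        omega
      rw [e2, ← mul_assoc, ← pow_add]
      congr 1
      have e3 : m + (j + 1) = (m - 1 - j) + 2 * (j + 1) := by omega
      rw [e3, pow_add, pow_mul]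
      norm_num
    · rw [Finset.mul_sum]
      apply Finset.sum_congr rfl
      intro i hi
      have hi' : i < s - m := Finset.mem_range.1 hi
      have e2 : R i = a (m + i + 1) := by
        simp only [hR]
        rw [if_pos (by omega)]
      rw [e2, ← mul_assoc, ← pow_add]
  rw [dS] at hsum
  have hne : ((-1 : ℝ) ^ m) ≠ 0 := pow_ne_zero _ (by norm_num)
  have hz := (mul_eq_zero.1 hsum).resolve_left hne
  rw [dL, dR] at hz
  have b1 : R 2 ≤ q * R 1 := (sR 0).2
  have b2 : L 2 ≤ q * L 1 := (sL 0).2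
  have hLR : L 1 * R 1 ≤ q * (a (m + 1)) ^ 2 := by
    by_cases h1 : 1 ≤ m
    · by_cases h2 : m + 1 < s
      · have h3 := hlc m h1 (by omega)
        have e1 : L 1 = a m := by
          simp only [hL]
          rw [if_pos h1]
          congr 1
          omega
        have e2 : R 1 = a (m + 2) := by
          simp only [hR]
          rw [if_pos h2]
        rw [e1, e2]
        exact h3
      · have e2 : R 1 = 0 := by simp only [hR]; rw [if_neg h2]
        rw [e2, mul_zero]
        exact mul_nonneg hq0.le (sq_nonneg _)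
    · have e1 : L 1 = 0 := by simp only [hL]; rw [if_neg h1]
      rw [e1, zero_mul]
      exact mul_nonneg hq0.le (sq_nonneg _)
  rw [hR00] at hz hR1
  rw [hL00] at hL1
  have habs : |a (m + 1) - L 1 - R 1| ≤ q * (L 1 + R 1) := by
    rw [abs_le]
    constructor
    · have h1 := tR.1
      have h2 := tL.1
      have h3 := tR.2
      have h4 := tL.2
      have h5 := hR0 1
      have h6 := hL0 1
      nlinarith
    · have h1 := tR.1
      have h2 := tL.1
      have h5 := mul_nonneg hq0.le (hR0 1)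
      have h6 := mul_nonneg hq0.le (hL0 1)
      nlinarith
  rcases le_total (R 1) (L 1) with h | h
  · obtain ⟨h1, h2⟩ := alt_num (a (m + 1)) (L 1) (R 1) q hM (hL0 1) (hR0 1) hL1 hR1 hq0 hq hLR habs h
    have h3 : 1 ≤ m := by
      by_contra h4
      have e1 : L 1 = 0 := by simp only [hL]; rw [if_neg h4]
      linarith
    have e1 : L 1 = a m := by
      simp only [hL]
      rw [if_pos h3]
      congr 1
      omega
    rw [e1] at h2 hL1
    refine ⟨m, h3, by omega, ?_⟩
    rw [abs_of_nonneg (by linarith)]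
    exact h2
  · have habs' : |a (m + 1) - R 1 - L 1| ≤ q * (R 1 + L 1) := by
      have e1 : a (m + 1) - R 1 - L 1 = a (m + 1) - L 1 - R 1 := by ring
      rw [e1, add_comm (R 1)]
      exact habs
    have hLR' : R 1 * L 1 ≤ q * (a (m + 1)) ^ 2 := by rw [mul_comm]; exact hLR
    obtain ⟨h1, h2⟩ := alt_num (a (m + 1)) (R 1) (L 1) q hM (hR0 1) (hL0 1) hR1 hL1 hq0 hq hLR' habs' h
    have h3 : m + 1 < s := by
      by_contra h4
      have e1 : R 1 = 0 := by simp only [hR]; rw [if_neg h4]
      linarith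
    have e1 : R 1 = a (m + 2) := by
      simp only [hR]
      rw [if_pos h3]
    rw [e1] at h2 hR1
    refine ⟨m + 1, by omega, by omega, ?_⟩
    have e2 : a (m + 1 + 1) = a (m + 2) := rfl
    rw [e2, abs_sub_comm, abs_of_nonneg (by linarith)]
    calc a (m + 1) - a (m + 2) ≤ 10 * q * a (m + 2) := h2
      _ ≤ 10 * q * a (m + 1) := by
          apply mul_le_mul_of_nonneg_left hR1
          linarith

end Pool.Agent.H56.SMS
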