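import Pool.Agent.H33.SMS.Targets

/-!
# Row LOC
-/

set_option autoImplicit false

noncomputable section

namespace Pool.Agent.H56.SMS

open Pool.Agent.H33.SMS

theorem pf_LOC (hA : T_ALT) (hG : T_GAP) : T_LOC := by
  intro s hs
  have hsR : (2 : ℝ) ≤ s := by exact_mod_cast hs
  have hs2 : (4 : ℝ) ≤ (s : ℝ) ^ 2 := by nlinarith
  have hinv : 1 / (s : ℝ) ^ 2 ≤ 1 / 4 := one_div_le_one_div_of_le (by norm_num) hs2
  have hinv0 : 0 < 1 / (s : ℝ) ^ 2 := by positivity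
  obtain ⟨K, hK⟩ := exists_pow_lt_of_lt_one (show (0 : ℝ) < 1 / 16 by norm_num)
    (show 1 - 1 / (s : ℝ) ^ 2 < 1 by linarith)
  refine ⟨K, 1 - 1 / (s : ℝ) ^ 2, 10 + 2 * s, by linarith, by linarith, by linarith, ?_⟩
  intro n k hk hsn hGz
  set θ : ℝ := 1 - 1 / (s : ℝ) ^ 2 with hθ
  have hθ0 : 0 < θ := by linarith
  have hθ1 : θ < 1 := by linarith
  have hq0 : 0 < θ ^ k := pow_pos hθ0 k
  have hq : θ ^ k ≤ 1 / 16 :=
    le_trans (pow_le_pow_of_le_one hθ0.le hθ1.le hk) hK.le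
  have hpos : ∀ i, 1 ≤ i → i ≤ s → 0 < (fun i : ℕ => (i : ℝ) ^ k * (n.choose (s - i) : ℝ)) i := by
    intro i hi his
    have h1 : (0 : ℝ) < (i : ℝ) := by exact_mod_cast hi
    have h2 : (0 : ℝ) < (n.choose (s - i) : ℝ) := by
      exact_mod_cast Nat.choose_pos (by omega)
    exact mul_pos (pow_pos h1 k) h2
  have hsum : ∑ i ∈ Finset.range s, (-1 : ℝ) ^ i *
      (fun i : ℕ => (i : ℝ) ^ k * (n.choose (s - i) : ℝ)) (i + 1) = 0 := by
    have h1 : ((G n s k : ℤ) : ℝ) = 0 := by rw [hGz]; simp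
    rw [← h1]
    unfold G
    push_cast
    apply Finset.sum_congr rfl
    intro i _
    have e1 : s - (i + 1) = s - 1 - i := by omega
    simp only [e1]
    ring
  obtain ⟨i, hi, his, hle⟩ := hA s (fun i : ℕ => (i : ℝ) ^ k * (n.choose (s - i) : ℝ)) (θ ^ k) hs
    hq0 hq hpos (fun i hi1 hi2 => hG n s k i hi1 hi2) hsum
  refine ⟨i, hi, by omega, ?_⟩
  obtain ⟨m, hm⟩ : ∃ m, s - i = m + 1 := ⟨s - i - 1, by omega⟩
  have hm' : s - (i + 1) = m := by omega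
  have hmn : m ≤ n := by omega
  simp only [hm, hm'] at hle
  have hc : (0 : ℝ) < (n.choose m : ℝ) := by exact_mod_cast Nat.choose_pos hmn
  have hch : (n.choose (m + 1) : ℝ) * ((m : ℝ) + 1) = (n.choose m : ℝ) * ((n : ℝ) - m) := by
    have h1 := Nat.choose_succ_right_eq n m
    have h2 : ((n.choose (m + 1) * (m + 1) : ℕ) : ℝ) = ((n.choose m * (n - m) : ℕ) : ℝ) := by
      rw [h1]
    rw [Nat.cast_mul, Nat.cast_mul, Nat.cast_sub hmn] at h2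
    push_cast at h2
    exact h2
  have hiR : (1 : ℝ) ≤ (i : ℝ) := by exact_mod_cast hi
  have hik : (0 : ℝ) < (i : ℝ) ^ k := pow_pos (by linarith) k
  have hi1k : (0 : ℝ) < ((i : ℝ) + 1) ^ k := pow_pos (by linarith) k
  have hm0 : (0 : ℝ) ≤ (m : ℝ) := Nat.cast_nonneg m
  have hmnR : (m : ℝ) ≤ n := by exact_mod_cast hmn
  push_cast at hle
  -- multiply by `m + 1`
  have h1 : |((m : ℝ) + 1) * ((i : ℝ) + 1) ^ k - (i : ℝ) ^ k * ((n : ℝ) - m)| ≤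
      10 * θ ^ k * ((i : ℝ) ^ k * ((n : ℝ) - m)) := by
    have h2 : (n.choose m : ℝ) * |((m : ℝ) + 1) * ((i : ℝ) + 1) ^ k - (i : ℝ) ^ k * ((n : ℝ) - m)| ≤
        (n.choose m : ℝ) * (10 * θ ^ k * ((i : ℝ) ^ k * ((n : ℝ) - m))) := by
      calc (n.choose m : ℝ) * |((m : ℝ) + 1) * ((i : ℝ) + 1) ^ k - (i : ℝ) ^ k * ((n : ℝ) - m)|
          = |(n.choose m : ℝ) * (((m : ℝ) + 1) * ((i : ℝ) + 1) ^ k - (i : ℝ) ^ k * ((n : ℝ) - m))| := by
            rw [abs_mul, abs_of_pos hc]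
        _ = |((m : ℝ) + 1) * (((i : ℝ) + 1) ^ k * (n.choose m : ℝ) -
              (i : ℝ) ^ k * (n.choose (m + 1) : ℝ))| := by
            congr 1
            have : (i : ℝ) ^ k * ((n.choose (m + 1) : ℝ) * ((m : ℝ) + 1)) =
              (i : ℝ) ^ k * ((n.choose m : ℝ) * ((n : ℝ) - m)) := by rw [hch]
            linarith
        _ = ((m : ℝ) + 1) * |((i : ℝ) + 1) ^ k * (n.choose m : ℝ) -
              (i : ℝ) ^ k * (n.choose (m + 1) : ℝ)| := by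
            rw [abs_mul, abs_of_pos (by linarith : (0 : ℝ) < (m : ℝ) + 1)]
        _ ≤ ((m : ℝ) + 1) * (10 * θ ^ k * ((i : ℝ) ^ k * (n.choose (m + 1) : ℝ))) := by
            apply mul_le_mul_of_nonneg_left hle (by linarith)
        _ = 10 * θ ^ k * ((i : ℝ) ^ k * ((n.choose (m + 1) : ℝ) * ((m : ℝ) + 1))) := by ring
        _ = 10 * θ ^ k * ((i : ℝ) ^ k * ((n.choose m : ℝ) * ((n : ℝ) - m))) := by rw [hch]
        _ = (n.choose m : ℝ) * (10 * θ ^ k * ((i : ℝ) ^ k * ((n : ℝ) - m))) := by ring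
    exact le_of_mul_le_mul_left h2 hc
  have hP : 0 ≤ (i : ℝ) ^ k * ((n : ℝ) - m) := mul_nonneg hik.le (by linarith)
  have hPn : (i : ℝ) ^ k * ((n : ℝ) - m) ≤ (i : ℝ) ^ k * n :=
    mul_le_mul_of_nonneg_left (by linarith) hik.le
  -- `1 <= 2 q n`
  have h3 : ((i : ℝ) + 1) ^ k ≤ 2 * ((i : ℝ) ^ k * n) := by
    have h4 := (abs_le.1 h1).2
    have h5 : 10 * θ ^ k * ((i : ℝ) ^ k * ((n : ℝ) - m)) ≤ 1 * ((i : ℝ) ^ k * ((n : ℝ) - m)) := by
      apply mul_le_mul_of_nonneg_right _ hP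
      linarith
    have h6 : ((i : ℝ) + 1) ^ k ≤ ((m : ℝ) + 1) * ((i : ℝ) + 1) ^ k := by
      nlinarith
    linarith
  have hbase : (i : ℝ) ≤ θ * ((i : ℝ) + 1) := by
    have h4 : ((i : ℝ) + 1) ≤ s := by exact_mod_cast his
    have h5 : ((i : ℝ) + 1) * (1 / (s : ℝ) ^ 2) ≤ 1 := by
      rw [mul_one_div, div_le_one (by positivity)]
      nlinarith
    rw [hθ]
    nlinarith
  have h7 : (i : ℝ) ^ k ≤ θ ^ k * ((i : ℝ) + 1) ^ k := by
    rw [← mul_pow]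
    exact pow_le_pow_left₀ (by linarith) hbase k
  have h8 : (i : ℝ) ^ k * 1 ≤ (i : ℝ) ^ k * (2 * (θ ^ k * n)) := by
    calc (i : ℝ) ^ k * 1 = (i : ℝ) ^ k := mul_one _
      _ ≤ θ ^ k * ((i : ℝ) + 1) ^ k := h7
      _ ≤ θ ^ k * (2 * ((i : ℝ) ^ k * n)) := mul_le_mul_of_nonneg_left h3 hq0.le
      _ = (i : ℝ) ^ k * (2 * (θ ^ k * n)) := by ring
  have hms : (m : ℝ) ≤ s := by
    have : m ≤ s := by omega
    exact_mod_cast this
  have h9 : (i : ℝ) ^ k * m ≤ 2 * s * θ ^ k * (n * (i : ℝ) ^ k) := by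
    calc (i : ℝ) ^ k * m = m * ((i : ℝ) ^ k * 1) := by ring
      _ ≤ m * ((i : ℝ) ^ k * (2 * (θ ^ k * n))) := mul_le_mul_of_nonneg_left h8 hm0
      _ ≤ s * ((i : ℝ) ^ k * (2 * (θ ^ k * n))) := by
          apply mul_le_mul_of_nonneg_right hms
          positivity
      _ = 2 * s * θ ^ k * (n * (i : ℝ) ^ k) := by ring
  have hsi : (s : ℝ) - i = m + 1 := by
    have h4 : s = i + (m + 1) := by omega
    rw [h4]
    push_cast
    ring
  rw [hsi]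
  have h10 : 10 * θ ^ k * ((i : ℝ) ^ k * ((n : ℝ) - m)) ≤ 10 * θ ^ k * (n * (i : ℝ) ^ k) := by
    calc 10 * θ ^ k * ((i : ℝ) ^ k * ((n : ℝ) - m)) ≤ 10 * θ ^ k * ((i : ℝ) ^ k * n) :=
          mul_le_mul_of_nonneg_left hPn (by positivity)
      _ = 10 * θ ^ k * (n * (i : ℝ) ^ k) := by ring
  have hkm : 0 ≤ (i : ℝ) ^ k * m := mul_nonneg hik.le hm0
  have h11 := abs_le.1 h1
  rw [abs_le]
  constructor
  · have : -((10 + 2 * (s : ℝ)) * θ ^ k * (n * (i : ℝ) ^ k)) =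
      -(10 * θ ^ k * (n * (i : ℝ) ^ k)) - 2 * s * θ ^ k * (n * (i : ℝ) ^ k) := by ring
    rw [this]
    linarith [h11.1, h11.2]
  · have : ((10 + 2 * (s : ℝ)) * θ ^ k * (n * (i : ℝ) ^ k)) =
      (10 * θ ^ k * (n * (i : ℝ) ^ k)) + 2 * s * θ ^ k * (n * (i : ℝ) ^ k) := by ring
    rw [this]
    linarith [h11.1, h11.2]

end Pool.Agent.H56.SMS
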